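import Mathlib

set_option autoImplicit false

namespace Pool.Agent.Helper91Hyp

open Finset

variable {V : Type} [DecidableEq V]

/-- `x` is critical for `v` given the selected set `I`: some edge consists of `x`, `v` and
selected vertices. -/
def Crit (E : Finset (Finset V)) (I : Finset V) (x v : V) : Prop :=
  x ≠ v ∧ ∃ e ∈ E, x ∈ e ∧ v ∈ e ∧ e ⊆ insert x (insert v I)

noncomputable instance (E : Finset (Finset V)) (I : Finset V) (x v : V) :
    Decidable (Crit E I x v) := Classical.dec _

/-- truncation -/
noncomputable def tr (y : ℝ) : ℝ := if y ≤ 1 / 2 then y else 0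

/-- new weights when `x` is selected -/
noncomputable def selW (E : Finset (Finset V)) (I : Finset V) (x : V) (W : V → ℝ) : V → ℝ :=
  fun v => if Crit E I x v then 0 else W v

/-- new weights when `x` is rejected -/
noncomputable def rejW (E : Finset (Finset V)) (I : Finset V) (x : V) (W : V → ℝ) : V → ℝ :=
  fun v => if Crit E I x v then W v / (1 - tr (W x)) else W v

/-- expectation of `F` at the end of the process that treats the vertices of the list -/
noncomputable def Ex (E : Finset (Finset V)) :
    List V → Finset V → (V → ℝ) → (Finset V → (V → ℝ) → ℝ) → ℝ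
  | [], I, W, F => F I W
  | x :: l, I, W, F =>
      tr (W x) * Ex E l (insert x I) (selW E I x W) F
        + (1 - tr (W x)) * Ex E l I (rejW E I x W) F

lemma tr_nonneg {y : ℝ} (h : 0 ≤ y) : 0 ≤ tr y := by
  unfold tr; split_ifs <;> simp [h]

lemma tr_le_half (y : ℝ) : tr y ≤ 1 / 2 := by
  unfold tr; split_ifs with h
  · exact h
  · norm_num

lemma tr_le {y : ℝ} (h : 0 ≤ y) : tr y ≤ y := by
  unfold tr; split_ifs <;> simp [h]

lemma tr_zero : tr 0 = 0 := by simp [tr]

lemma one_sub_tr_pos (y : ℝ) : 0 < 1 - tr y := by
  have := tr_le_half y; linarith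

lemma selW_nonneg {E : Finset (Finset V)} {I : Finset V} {x : V} {W : V → ℝ}
    (hW : ∀ v, 0 ≤ W v) (v : V) : 0 ≤ selW E I x W v := by
  unfold selW; split_ifs <;> simp [hW]

lemma rejW_nonneg {E : Finset (Finset V)} {I : Finset V} {x : V} {W : V → ℝ}
    (hW : ∀ v, 0 ≤ W v) (v : V) : 0 ≤ rejW E I x W v := by
  unfold rejW; split_ifs
  · exact div_nonneg (hW v) (one_sub_tr_pos _).le
  · exact hW v

lemma Ex_append (E : Finset (Finset V)) (l₁ l₂ : List V) (I : Finset V) (W : V → ℝ)
    (F : Finset V → (V → ℝ) → ℝ) :
    Ex E (l₁ ++ l₂) I W F = Ex E l₁ I W (fun I' W' => Ex E l₂ I' W' F) := by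
  induction l₁ generalizing I W with
  | nil => rfl
  | cons x l ih => simp only [List.cons_append, Ex, ih]

lemma Ex_mono (E : Finset (Finset V)) (l : List V) (I : Finset V) (W : V → ℝ)
    (hW : ∀ v, 0 ≤ W v)
    (F G : Finset V → (V → ℝ) → ℝ) (hFG : ∀ I W, (∀ v, 0 ≤ W v) → F I W ≤ G I W) :
    Ex E l I W F ≤ Ex E l I W G := by
  induction l generalizing I W with
  | nil => exact hFG I W hW
  | cons x l ih =>
    simp only [Ex]
    gcongr
    · exact tr_nonneg (hW x)
    · exact ih _ _ (selW_nonneg hW)
    · exact (one_sub_tr_pos _).le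
    · exact ih _ _ (rejW_nonneg hW)

lemma Ex_const (E : Finset (Finset V)) (l : List V) (I : Finset V) (W : V → ℝ) (c : ℝ) :
    Ex E l I W (fun _ _ => c) = c := by
  induction l generalizing I W with
  | nil => rfl
  | cons x l ih => simp only [Ex, ih]; ring

lemma Ex_sum {ι : Type} (s : Finset ι) (E : Finset (Finset V)) (l : List V) (I : Finset V)
    (W : V → ℝ) (F : ι → Finset V → (V → ℝ) → ℝ) :
    Ex E l I W (fun I' W' => ∑ i ∈ s, F i I' W') = ∑ i ∈ s, Ex E l I W (F i) := by
  induction l generalizing I W with
  | nil => rfl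
  | cons x l ih => simp only [Ex, ih, Finset.mul_sum, Finset.sum_add_distrib]

/-- membership of a selected vertex persists -/
lemma Ex_mem (E : Finset (Finset V)) (l : List V) (I : Finset V) (W : V → ℝ) (v : V)
    (hv : v ∈ I) :
    Ex E l I W (fun I' _ => if v ∈ I' then 1 else 0) = 1 := by
  induction l generalizing I W with
  | nil => simp [Ex, hv]
  | cons x l ih =>
    simp only [Ex]
    rw [ih _ _ (Finset.mem_insert_of_mem hv), ih _ _ hv]; ring

/-- the process only ends at independent sets -/
lemma Ex_indep (E : Finset (Finset V)) (l : List V) (I : Finset V) (W : V → ℝ)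
    (F : Finset V → (V → ℝ) → ℝ)
    (hI : ∀ e ∈ E, ¬ e ⊆ I)
    (hW : ∀ v, v ∉ I → (∃ e ∈ E, v ∈ e ∧ e ⊆ insert v I) → W v = 0)
    (hF : ∀ I W, (∀ e ∈ E, ¬ e ⊆ I) → F I W = 0) :
    Ex E l I W F = 0 := by
  induction l generalizing I W with
  | nil => exact hF _ _ hI
  | cons x l ih =>
    simp only [Ex]
    have hrej : Ex E l I (rejW E I x W) F = 0 := by
      apply ih _ _ hI
      intro v hv he
      have := hW v hv he
      unfold rejW; split_ifs <;> simp [this]
    rw [hrej, mul_zero, add_zero]
    by_cases h0 : tr (W x) = 0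
    · rw [h0, zero_mul]
    · have hx0 : W x ≠ 0 := by
        intro h; rw [h, tr_zero] at h0; exact h0 rfl
      by_cases hxI : x ∈ I
      · have hins : insert x I = I := Finset.insert_eq_of_mem hxI
        rw [hins, ih _ _ hI, mul_zero]
        intro v hv he
        have := hW v hv he
        unfold selW; split_ifs <;> simp [this]
      rw [ih, mul_zero]
      · intro e he hsub
        by_cases hxe : x ∈ e
        · exact hx0 (hW x hxI ⟨e, he, hxe, hsub⟩)
        · apply hI e he
          intro y hy
          rcases Finset.mem_insert.1 (hsub hy) with h | h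
          · exact absurd (h ▸ hy) hxe
          · exact h
      · intro v hv ⟨e, he, hve, hsub⟩
        have hvx : x ≠ v := by
          rintro rfl; exact hv (Finset.mem_insert_self _ _)
        have hvI : v ∉ I := fun h => hv (Finset.mem_insert_of_mem h)
        unfold selW
        split_ifs with hc
        · rfl
        · apply hW v hvI
          refine ⟨e, he, hve, ?_⟩
          by_cases hxe : x ∈ e
          · exfalso; apply hc
            refine ⟨hvx, e, he, hxe, hve, ?_⟩
            rw [Finset.insert_comm]; exact hsub
          · intro y hy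
            rcases Finset.mem_insert.1 (hsub hy) with h | h
            · exact h ▸ Finset.mem_insert_self _ _
            · rcases Finset.mem_insert.1 h with h | h
              · exact absurd (h ▸ hy) hxe
              · exact Finset.mem_insert_of_mem h

end Pool.Agent.Helper91Hyp
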