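import Pool.Agent.Helper91_Hyp.Basic

set_option autoImplicit false

namespace Pool.Agent.Helper91Hyp

open Finset

variable {V : Type} [DecidableEq V]

/-- factor of a vertex in the product supermartingale -/
noncomputable def fac (l : List V) (I : Finset V) (W : V → ℝ) (u : V) : ℝ :=
  if u ∈ l then W u else if u ∈ I then 1 else 0

/-- the product supermartingale of an edge `f` with last vertex `v` -/
noncomputable def M (l : List V) (I : Finset V) (W : V → ℝ) (v : V) (f : Finset V) : ℝ :=
  ∏ u ∈ f.erase v, fac l I W u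

lemma fac_nonneg {l : List V} {I : Finset V} {W : V → ℝ} (hW : ∀ v, 0 ≤ W v) (u : V) :
    0 ≤ fac l I W u := by
  unfold fac; split_ifs <;> simp [hW]

lemma M_nonneg {l : List V} {I : Finset V} {W : V → ℝ} (hW : ∀ v, 0 ≤ W v) (v : V)
    (f : Finset V) : 0 ≤ M l I W v f :=
  Finset.prod_nonneg fun u _ => fac_nonneg hW u

lemma M_eq_zero {l : List V} {I : Finset V} {W : V → ℝ} {v x : V} {f : Finset V}
    (hx : x ∈ f.erase v) (hxl : x ∉ l) (hxI : x ∉ I) : M l I W v f = 0 := by
  unfold M
  apply Finset.prod_eq_zero hx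
  simp [fac, hxl, hxI]

/-- the hypothesis of triangle-freeness in the form of the frozen statement -/
def TriFree (E : Finset (Finset V)) : Prop :=
  ¬ ∃ e ∈ E, ∃ f ∈ E, ∃ g ∈ E, ∃ u v w : V,
            u ∈ e ∧ u ∈ f ∧ v ∈ f ∧ v ∈ g ∧ w ∈ e ∧ w ∈ g ∧
            u ∉ g ∧ v ∉ e ∧ w ∉ f

lemma crit_unique {E : Finset (Finset V)} (hT : TriFree E) {I f : Finset V} {x u₁ u₂ : V}
    (hf : f ∈ E) (hxf : x ∉ f) (h₁ : u₁ ∈ f) (h₂ : u₂ ∈ f) (h₁I : u₁ ∉ I) (h₂I : u₂ ∉ I)
    (hne : u₁ ≠ u₂) (hc₁ : Crit E I x u₁) : ¬ Crit E I x u₂ := by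
  intro hc₂
  obtain ⟨hx1, e₁, he₁, hxe₁, hue₁, hs₁⟩ := hc₁
  obtain ⟨hx2, e₂, he₂, hxe₂, hue₂, hs₂⟩ := hc₂
  apply hT
  refine ⟨e₁, he₁, f, hf, e₂, he₂, u₁, u₂, x, hue₁, h₁, h₂, hue₂, hxe₁, hxe₂, ?_, ?_, hxf⟩
  · intro h
    have := hs₂ h
    simp only [Finset.mem_insert] at this
    rcases this with h | h | h
    · exact hx1 h.symm
    · exact hne h
    · exact h₁I h
  · intro h
    have := hs₁ h
    simp only [Finset.mem_insert] at this
    rcases this with h | h | h
    · exact hx2 h.symm
    · exact hne h.symm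
    · exact h₂I h

lemma selW_le {E : Finset (Finset V)} {I : Finset V} {x : V} {W : V → ℝ}
    (hW : ∀ v, 0 ≤ W v) (u : V) : selW E I x W u ≤ W u := by
  unfold selW; split_ifs
  · exact hW u
  · exact le_rfl

/-- `x ∈ f` : the step inequality -/
lemma M_step_mem {E : Finset (Finset V)} {l : List V} {I : Finset V} {W : V → ℝ}
    (hW : ∀ v, 0 ≤ W v) {v x : V} {f : Finset V} (hx : x ∈ f.erase v) (hxl : x ∉ l) :
    tr (W x) * M l (insert x I) (selW E I x W) v f ≤ M (x :: l) I W v f := by
  unfold M
  rw [← Finset.mul_prod_erase _ _ hx, ← Finset.mul_prod_erase _ _ hx]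
  have h1 : fac l (insert x I) (selW E I x W) x = 1 := by
    simp [fac, hxl]
  have h2 : fac (x :: l) I W x = W x := by simp [fac]
  rw [h1, h2, one_mul]
  apply mul_le_mul (tr_le (hW x)) _ (Finset.prod_nonneg fun u _ => fac_nonneg (selW_nonneg hW) u)
    (hW x)
  apply Finset.prod_le_prod
  · intro u _; exact fac_nonneg (selW_nonneg hW) u
  · intro u hu
    have hux : u ≠ x := (Finset.mem_erase.1 hu).1
    unfold fac
    simp only [List.mem_cons, hux, false_or, Finset.mem_insert]
    split_ifs
    · exact selW_le hW u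
    · exact le_rfl
    · exact le_rfl

/-- `x ∉ f`, nothing critical -/
lemma fac_sel_eq {E : Finset (Finset V)} {l : List V} {I : Finset V} {W : V → ℝ} {x u : V}
    (hux : u ≠ x) (hc : u ∈ l → ¬ Crit E I x u) :
    fac l (insert x I) (selW E I x W) u = fac (x :: l) I W u := by
  unfold fac
  simp only [List.mem_cons, hux, false_or, Finset.mem_insert]
  split_ifs with h1 h2
  · simp [selW, hc h1]
  · rfl
  · rfl

lemma fac_rej_eq {E : Finset (Finset V)} {l : List V} {I : Finset V} {W : V → ℝ} {x u : V}
    (hux : u ≠ x) (hc : u ∈ l → ¬ Crit E I x u) :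
    fac l I (rejW E I x W) u = fac (x :: l) I W u := by
  unfold fac
  simp only [List.mem_cons, hux, false_or]
  split_ifs with h1 h2
  · simp [rejW, hc h1]
  · rfl
  · rfl

lemma M_rej_eq {E : Finset (Finset V)} {l : List V} {I : Finset V} {W : V → ℝ} {v x : V}
    {f : Finset V} (hx : x ∉ f) (hc : ∀ u ∈ f.erase v, u ∈ l → ¬ Crit E I x u) :
    M l I (rejW E I x W) v f = M (x :: l) I W v f := by
  unfold M
  apply Finset.prod_congr rfl
  intro u hu
  apply fac_rej_eq _ (hc u hu)
  rintro rfl; exact hx (Finset.mem_of_mem_erase hu)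

lemma M_sel_eq {E : Finset (Finset V)} {l : List V} {I : Finset V} {W : V → ℝ} {v x : V}
    {f : Finset V} (hx : x ∉ f) (hc : ∀ u ∈ f.erase v, u ∈ l → ¬ Crit E I x u) :
    M l (insert x I) (selW E I x W) v f = M (x :: l) I W v f := by
  unfold M
  apply Finset.prod_congr rfl
  intro u hu
  apply fac_sel_eq _ (hc u hu)
  rintro rfl; exact hx (Finset.mem_of_mem_erase hu)

/-- step inequality for a single edge when `x` is not critical for `v` -/
lemma M_step {E : Finset (Finset V)} (hT : TriFree E) {l : List V} {I : Finset V} {W : V → ℝ}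
    (hW : ∀ v, 0 ≤ W v) {v x : V} {f : Finset V} (hf : f ∈ E) (hxv : x ≠ v) (hxl : x ∉ l)
    (hxI : x ∉ I) (hdisj : ∀ u ∈ l, u ∉ I) :
    tr (W x) * M l (insert x I) (selW E I x W) v f
      + (1 - tr (W x)) * M l I (rejW E I x W) v f ≤ M (x :: l) I W v f := by
  by_cases hxf : x ∈ f
  · have hx : x ∈ f.erase v := Finset.mem_erase.2 ⟨hxv, hxf⟩
    rw [M_eq_zero (W := rejW E I x W) hx hxl hxI, mul_zero, add_zero]
    exact M_step_mem hW hx hxl
  · by_cases hc : ∃ u ∈ f.erase v, u ∈ l ∧ Crit E I x u
    · obtain ⟨u, hu, hul, hcu⟩ := hc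
      have hux : u ≠ x := by
        rintro rfl; exact hxf (Finset.mem_of_mem_erase hu)
      have h1 : M l (insert x I) (selW E I x W) v f = 0 := by
        unfold M
        apply Finset.prod_eq_zero hu
        simp [fac, hul, selW, hcu]
      have h2 : (1 - tr (W x)) * M l I (rejW E I x W) v f = M (x :: l) I W v f := by
        unfold M
        rw [← Finset.mul_prod_erase _ _ hu, ← Finset.mul_prod_erase _ _ hu]
        have h3 : fac l I (rejW E I x W) u = W u / (1 - tr (W x)) := by
          simp [fac, hul, rejW, hcu]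
        have h4 : fac (x :: l) I W u = W u := by
          simp [fac, hul]
        have h5 : ∏ u' ∈ (f.erase v).erase u, fac l I (rejW E I x W) u'
            = ∏ u' ∈ (f.erase v).erase u, fac (x :: l) I W u' := by
          apply Finset.prod_congr rfl
          intro u' hu'
          have hu'1 : u' ≠ u := (Finset.mem_erase.1 hu').1
          have hu'2 : u' ∈ f := Finset.mem_of_mem_erase (Finset.mem_of_mem_erase hu')
          apply fac_rej_eq
          · rintro rfl; exact hxf hu'2
          · intro hu'l
            exact crit_unique hT hf hxf (Finset.mem_of_mem_erase hu) hu'2 (hdisj u hul)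
              (hdisj u' hu'l) (Ne.symm hu'1) hcu
        rw [h3, h4, h5, ← mul_assoc, mul_div_cancel₀ _ (one_sub_tr_pos _).ne']
      rw [h1, h2, mul_zero, zero_add]
    · push Not at hc
      rw [M_sel_eq hxf hc, M_rej_eq hxf hc]
      apply le_of_eq; ring

/-- step inequality for a single edge when `x` is critical for `v` and rejected -/
lemma M_step_crit {E : Finset (Finset V)} (hT : TriFree E) {l : List V} {I : Finset V}
    {W : V → ℝ}
    (hW : ∀ v, 0 ≤ W v) {v x : V} {f : Finset V} (hf : f ∈ E) (hvf : v ∈ f)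
    (hxv : x ≠ v) (hxl : x ∉ l) (hvI : v ∉ I)
    (hxI : x ∉ I) (hdisj : ∀ u ∈ l, u ∉ I) (hcv : Crit E I x v) :
    M l I (rejW E I x W) v f ≤ M (x :: l) I W v f := by
  by_cases hxf : x ∈ f
  · have hx : x ∈ f.erase v := Finset.mem_erase.2 ⟨hxv, hxf⟩
    rw [M_eq_zero (W := rejW E I x W) hx hxl hxI]
    exact M_nonneg hW v f
  · rw [M_rej_eq hxf]
    intro u hu hul
    exact crit_unique hT hf hxf hvf (Finset.mem_of_mem_erase hu) hvI (hdisj u hul)
      (Ne.symm (Finset.mem_erase.1 hu).1) hcv

/-- `-log (1-w) ≤ 2 w` for `0 ≤ w ≤ 1/2` -/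
lemma neg_log_le {w : ℝ} (h0 : 0 ≤ w) (h1 : w ≤ 1 / 2) : - Real.log (1 - w) ≤ 2 * w := by
  have hpos : 0 < 1 - w := by linarith
  rw [neg_le_iff_add_nonneg, ← Real.log_exp (2 * w)]
  rw [← Real.log_mul (Real.exp_pos _).ne' hpos.ne']
  apply Real.log_nonneg
  have := Real.add_one_le_exp (2 * w)
  nlinarith

theorem key {E : Finset (Finset V)} (hT : TriFree E) (v : V) (p : ℝ) (hp : 0 < p)
    (hp2 : 0 < Real.log (1 / (2 * p)))
    (F : Finset (Finset V)) (hF : ∀ f ∈ F, f ∈ E ∧ v ∈ f)
    (l : List V) (I : Finset V) (W : V → ℝ) (hnd : l.Nodup) (hvl : v ∉ l) (hvI : v ∉ I)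
    (hdisj : ∀ u ∈ l, u ∉ I) (hW : ∀ u, 0 ≤ W u) (hWv : W v = 0 ∨ p ≤ W v)
    (hFE : ∀ e ∈ E, v ∈ e → (∀ u ∈ e, u = v ∨ u ∈ I ∨ u ∈ l) → e ∈ F) :
    W v * (1 - (Real.log (W v / p) + 2 * ∑ f ∈ F, M l I W v f) / Real.log (1 / (2 * p)))
      ≤ Ex E l I W (fun _ W' => tr (W' v)) := by
  set K := Real.log (1 / (2 * p)) with hK
  induction l generalizing I W with
  | nil =>
    simp only [Ex]
    have hM : 0 ≤ ∑ f ∈ F, M [] I W v f := Finset.sum_nonneg fun f _ => M_nonneg hW v f
    rcases hWv with h0 | hge
    · rw [h0, zero_mul, tr_zero]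
    · have hWpos : 0 < W v := lt_of_lt_of_le hp hge
      by_cases h12 : W v ≤ 1 / 2
      · have : tr (W v) = W v := by simp only [tr, if_pos h12]
        rw [this]
        have hlog : 0 ≤ Real.log (W v / p) := Real.log_nonneg (by rwa [le_div_iff₀ hp, one_mul])
        have : 0 ≤ (Real.log (W v / p) + 2 * ∑ f ∈ F, M [] I W v f) / K := by positivity
        nlinarith
      · push Not at h12
        have : tr (W v) = 0 := by simp only [tr, if_neg (not_le.2 h12)]
        rw [this]
        have hlog : K ≤ Real.log (W v / p) := by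
          apply Real.log_le_log (by positivity)
          rw [div_le_div_iff₀ (by positivity) hp]
          nlinarith
        have : 1 ≤ (Real.log (W v / p) + 2 * ∑ f ∈ F, M [] I W v f) / K := by
          rw [le_div_iff₀ hp2]; linarith
        nlinarith
  | cons x l ih =>
    have hxl : x ∉ l := (List.nodup_cons.1 hnd).1
    have hndl : l.Nodup := (List.nodup_cons.1 hnd).2
    have hxv : x ≠ v := fun h => hvl (h ▸ List.mem_cons_self)
    have hvl' : v ∉ l := fun h => hvl (List.mem_cons_of_mem _ h)
    have hxI : x ∉ I := hdisj x List.mem_cons_self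
    have hdisj' : ∀ u ∈ l, u ∉ I := fun u hu => hdisj u (List.mem_cons_of_mem _ hu)
    have hdisj'' : ∀ u ∈ l, u ∉ insert x I := by
      intro u hu h
      rcases Finset.mem_insert.1 h with h | h
      · exact hxl (h ▸ hu)
      · exact hdisj' u hu h
    have hvI' : v ∉ insert x I := by
      intro h
      rcases Finset.mem_insert.1 h with h | h
      · exact hxv h.symm
      · exact hvI h
    have hFE' : ∀ e ∈ E, v ∈ e → (∀ u ∈ e, u = v ∨ u ∈ I ∨ u ∈ l) → e ∈ F := by
      intro e he hve h
      apply hFE e he hve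
      intro u hu
      rcases h u hu with h | h | h
      · exact Or.inl h
      · exact Or.inr (Or.inl h)
      · exact Or.inr (Or.inr (List.mem_cons_of_mem _ h))
    have hFE'' : ∀ e ∈ E, v ∈ e → (∀ u ∈ e, u = v ∨ u ∈ insert x I ∨ u ∈ l) → e ∈ F := by
      intro e he hve h
      apply hFE e he hve
      intro u hu
      rcases h u hu with h | h | h
      · exact Or.inl h
      · rcases Finset.mem_insert.1 h with h | h
        · exact Or.inr (Or.inr (h ▸ List.mem_cons_self))
        · exact Or.inr (Or.inl h)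
      · exact Or.inr (Or.inr (List.mem_cons_of_mem _ h))
    have hw0 : 0 ≤ tr (W x) := tr_nonneg (hW x)
    have hw1 : tr (W x) ≤ 1 / 2 := tr_le_half _
    have hw2 : 0 < 1 - tr (W x) := one_sub_tr_pos _
    simp only [Ex]
    by_cases hc : Crit E I x v
    · -- critical for v
      have hselv : selW E I x W v = 0 := by simp [selW, hc]
      have hrejv : rejW E I x W v = W v / (1 - tr (W x)) := by simp [rejW, hc]
      have ih1 := ih (insert x I) (selW E I x W) hndl hvl' hvI' hdisj'' (selW_nonneg hW)
        (Or.inl hselv) hFE''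
      rw [hselv, zero_mul] at ih1
      rcases hWv with h0 | hge
      · have hr0 : rejW E I x W v = 0 := by rw [hrejv, h0, zero_div]
        have ih2 := ih I (rejW E I x W) hndl hvl' hvI hdisj' (rejW_nonneg hW)
          (Or.inl hr0) hFE'
        rw [hr0, zero_mul] at ih2
        rw [h0, zero_mul]
        positivity
      · have hWpos : 0 < W v := lt_of_lt_of_le hp hge
        have hge' : p ≤ rejW E I x W v := by
          rw [hrejv, le_div_iff₀ hw2]
          nlinarith
        have ih2 := ih I (rejW E I x W) hndl hvl' hvI hdisj' (rejW_nonneg hW)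
          (Or.inr hge') hFE'
        have hlog : Real.log (rejW E I x W v / p)
            = Real.log (W v / p) - Real.log (1 - tr (W x)) := by
          rw [hrejv, div_right_comm, Real.log_div (by positivity) hw2.ne']
        have hneg := neg_log_le hw0 hw1
        -- the critical edge
        obtain ⟨_, f₀, hf₀, hxf₀, hvf₀, hsub⟩ := hc
        have hf₀F : f₀ ∈ F := by
          apply hFE f₀ hf₀ hvf₀
          intro u hu
          have := hsub hu
          simp only [Finset.mem_insert] at this
          rcases this with h | h | h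
          · exact Or.inr (Or.inr (h ▸ List.mem_cons_self))
          · exact Or.inl h
          · exact Or.inr (Or.inl h)
        have hx₀ : x ∈ f₀.erase v := Finset.mem_erase.2 ⟨hxv, hxf₀⟩
        have hM₀ : M l I (rejW E I x W) v f₀ = 0 := M_eq_zero hx₀ hxl hxI
        have hM₁ : M (x :: l) I W v f₀ = W x := by
          unfold M
          rw [Finset.prod_eq_single_of_mem x hx₀]
          · simp [fac]
          · intro u hu hux
            have huf : u ∈ f₀ := Finset.mem_of_mem_erase hu
            have huv : u ≠ v := (Finset.mem_erase.1 hu).1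
            have := hsub huf
            simp only [Finset.mem_insert, hux, huv, false_or] at this
            have hul : u ∉ x :: l := fun h => hdisj u h this
            simp [fac, hul, this]
        have hsum : ∑ f ∈ F, M l I (rejW E I x W) v f + W x ≤ ∑ f ∈ F, M (x :: l) I W v f := by
          rw [← Finset.add_sum_erase _ _ hf₀F, ← Finset.add_sum_erase _ _ hf₀F, hM₀, hM₁,
            zero_add, add_comm]
          gcongr with f hf
          have hfF := Finset.mem_of_mem_erase hf
          exact M_step_crit hT hW (hF f hfF).1 (hF f hfF).2 hxv hxl hvI hxI hdisj'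
            ⟨hxv, f₀, hf₀, hxf₀, hvf₀, hsub⟩
        have hwW : tr (W x) ≤ W x := tr_le (hW x)
        have hmain : Real.log (rejW E I x W v / p) + 2 * ∑ f ∈ F, M l I (rejW E I x W) v f
            ≤ Real.log (W v / p) + 2 * ∑ f ∈ F, M (x :: l) I W v f := by
          rw [hlog]; linarith
        have h3 : 1 - (Real.log (W v / p) + 2 * ∑ f ∈ F, M (x :: l) I W v f) / K
          ≤ 1 - (Real.log (rejW E I x W v / p) + 2 * ∑ f ∈ F, M l I (rejW E I x W) v f) / K := by
          gcongr
        calc W v * (1 - (Real.log (W v / p) + 2 * ∑ f ∈ F, M (x :: l) I W v f) / K)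
            ≤ W v * (1 - (Real.log (rejW E I x W v / p)
                + 2 * ∑ f ∈ F, M l I (rejW E I x W) v f) / K) := by gcongr
          _ = (1 - tr (W x)) * (rejW E I x W v * (1 - (Real.log (rejW E I x W v / p)
                + 2 * ∑ f ∈ F, M l I (rejW E I x W) v f) / K)) := by
              rw [← mul_assoc, hrejv, mul_div_cancel₀ _ hw2.ne']
          _ ≤ (1 - tr (W x)) * Ex E l I (rejW E I x W) (fun _ W' => tr (W' v)) := by gcongr
          _ ≤ _ := by
              have : 0 ≤ tr (W x) * Ex E l (insert x I) (selW E I x W) (fun _ W' => tr (W' v)) :=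
                mul_nonneg hw0 ih1
              linarith
    · -- not critical for v
      have hselv : selW E I x W v = W v := by simp [selW, hc]
      have hrejv : rejW E I x W v = W v := by simp [rejW, hc]
      have ih1 := ih (insert x I) (selW E I x W) hndl hvl' hvI' hdisj'' (selW_nonneg hW)
        (by rw [hselv]; exact hWv) hFE''
      have ih2 := ih I (rejW E I x W) hndl hvl' hvI hdisj' (rejW_nonneg hW)
        (by rw [hrejv]; exact hWv) hFE'
      rw [hselv] at ih1
      rw [hrejv] at ih2
      have hsum : tr (W x) * ∑ f ∈ F, M l (insert x I) (selW E I x W) v f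
          + (1 - tr (W x)) * ∑ f ∈ F, M l I (rejW E I x W) v f
          ≤ ∑ f ∈ F, M (x :: l) I W v f := by
        rw [Finset.mul_sum, Finset.mul_sum, ← Finset.sum_add_distrib]
        apply Finset.sum_le_sum
        intro f hf
        exact M_step hT hW (hF f hf).1 hxv hxl hxI hdisj'
      have h1 : tr (W x) * (W v * (1 - (Real.log (W v / p)
            + 2 * ∑ f ∈ F, M l (insert x I) (selW E I x W) v f) / K))
          + (1 - tr (W x)) * (W v * (1 - (Real.log (W v / p)
            + 2 * ∑ f ∈ F, M l I (rejW E I x W) v f) / K))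
          ≤ tr (W x) * Ex E l (insert x I) (selW E I x W) (fun _ W' => tr (W' v))
            + (1 - tr (W x)) * Ex E l I (rejW E I x W) (fun _ W' => tr (W' v)) := by
        gcongr
      refine le_trans ?_ h1
      have h2 : tr (W x) * (W v * (1 - (Real.log (W v / p)
            + 2 * ∑ f ∈ F, M l (insert x I) (selW E I x W) v f) / K))
          + (1 - tr (W x)) * (W v * (1 - (Real.log (W v / p)
            + 2 * ∑ f ∈ F, M l I (rejW E I x W) v f) / K))
          = W v * (1 - (Real.log (W v / p) + 2 * (tr (W x) * ∑ f ∈ F, M l (insert x I) (selW E I x W) v f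
          + (1 - tr (W x)) * ∑ f ∈ F, M l I (rejW E I x W) v f)) / K) := by ring
      rw [h2]
      have := hW v
      gcongr

end Pool.Agent.Helper91Hyp
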