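import Pool.Agent.Helper91_Hyp.Key

set_option autoImplicit false

namespace Pool.Agent.Helper91Hyp

open Finset

variable {V : Type} [DecidableEq V]

lemma exists_order (E : Finset (Finset V)) (d : ℕ)
    (hdeg : ∀ S : Finset V, S.Nonempty →
          ∃ v ∈ S, (E.filter (fun e => v ∈ e ∧ e ⊆ S)).card ≤ d) (S : Finset V) :
    ∃ L : List V, L.Nodup ∧ L.toFinset = S ∧ ∀ L₁ v L₂, L = L₁ ++ v :: L₂ →
      (E.filter (fun e => v ∈ e ∧ e ⊆ insert v L₁.toFinset)).card ≤ d := by
  induction S using Finset.strongInduction with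
  | H S ih =>
    rcases S.eq_empty_or_nonempty with rfl | hS
    · refine ⟨[], List.nodup_nil, rfl, ?_⟩
      intro L₁ v L₂ h
      simp at h
    · obtain ⟨v, hv, hcard⟩ := hdeg S hS
      obtain ⟨L, hnd, hL, hprop⟩ := ih (S.erase v) (Finset.erase_ssubset hv)
      refine ⟨L ++ [v], ?_, ?_, ?_⟩
      · rw [List.nodup_append]
        refine ⟨hnd, List.nodup_singleton v, ?_⟩
        intro a ha b hb hab
        rw [List.mem_singleton] at hb
        subst hb; subst hab
        have : a ∈ L.toFinset := List.mem_toFinset.2 ha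
        rw [hL] at this
        exact (Finset.notMem_erase a S) this
      · rw [List.toFinset_append, hL]
        simp only [List.toFinset_cons, List.toFinset_nil, insert_empty_eq]
        rw [Finset.union_comm, ← Finset.insert_eq, Finset.insert_erase hv]
      · intro L₁ u L₂ h
        rcases List.eq_nil_or_concat L₂ with rfl | ⟨L₃, b, rfl⟩
        · have h1 := List.append_inj' h rfl
          obtain ⟨h2, h3⟩ := h1
          have h4 : v = u := by simpa using h3
          subst h4; subst h2
          rw [hL, Finset.insert_erase hv]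
          exact hcard
        · have h' : L ++ [v] = (L₁ ++ u :: L₃) ++ [b] := by
            rw [h]; simp
          have h1 := List.append_inj' h' rfl
          exact hprop L₁ u L₃ h1.1

lemma log_le_sqrt' {x : ℝ} (hx : 0 < x) : Real.log x ≤ Real.sqrt x := by
  have h0 : 0 < Real.sqrt x := Real.sqrt_pos.2 hx
  have h1 : 0 < Real.sqrt (Real.sqrt x) := Real.sqrt_pos.2 h0
  have h2 : Real.log x = 4 * Real.log (Real.sqrt (Real.sqrt x)) := by
    rw [Real.log_sqrt h0.le, Real.log_sqrt hx.le]; ring
  have h3 := Real.log_le_sub_one_of_pos h1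
  have h4 : Real.sqrt x = Real.sqrt (Real.sqrt x) ^ 2 := (Real.sq_sqrt h0.le).symm
  rw [h2]
  nlinarith [sq_nonneg (Real.sqrt (Real.sqrt x) - 2)]

lemma Ex_nonneg (E : Finset (Finset V)) (l : List V) (I : Finset V) (W : V → ℝ)
    (hW : ∀ v, 0 ≤ W v)
    (F : Finset V → (V → ℝ) → ℝ) (hF : ∀ I W, (∀ v, 0 ≤ W v) → 0 ≤ F I W) :
    0 ≤ Ex E l I W F := by
  have h := Ex_mono E l I W hW (fun _ _ => 0) F hF
  rwa [Ex_const] at h

/-- lower bound on the probability of selecting a vertex -/
lemma prob_mem {E : Finset (Finset V)} (hT : TriFree E) (r d : ℕ) (hr : ∀ e ∈ E, e.card = r)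
    (p : ℝ) (hp : 0 < p) (hp2 : 0 < Real.log (1 / (2 * p)))
    (hpd : 4 * d * p ^ (r - 1) ≤ Real.log (1 / (2 * p)))
    (L₁ L₂ : List V) (v : V) (hnd : (L₁ ++ v :: L₂).Nodup)
    (hcard : (E.filter (fun e => v ∈ e ∧ e ⊆ insert v L₁.toFinset)).card ≤ d) :
    p / 2 ≤ Ex E (L₁ ++ v :: L₂) ∅ (fun _ => p) (fun I' _ => if v ∈ I' then 1 else 0) := by
  rw [Ex_append]
  rw [List.nodup_append] at hnd
  obtain ⟨hnd1, hnd2, hnd3⟩ := hnd
  have hvL : v ∉ L₁ := fun h => hnd3 v h v List.mem_cons_self rfl
  have hkey := key hT v p hp hp2 (E.filter (fun e => v ∈ e ∧ e ⊆ insert v L₁.toFinset))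
    (by intro f hf; rw [Finset.mem_filter] at hf; exact ⟨hf.1, hf.2.1⟩)
    L₁ ∅ (fun _ => p) hnd1 hvL (Finset.notMem_empty v) (by simp) (fun _ => hp.le)
    (Or.inr le_rfl)
    (by
      intro e he hve h
      rw [Finset.mem_filter]
      refine ⟨he, hve, ?_⟩
      intro u hu
      rcases h u hu with h | h | h
      · exact h ▸ Finset.mem_insert_self _ _
      · exact absurd h (Finset.notMem_empty u)
      · exact Finset.mem_insert_of_mem (List.mem_toFinset.2 h))
  have hM : ∑ f ∈ E.filter (fun e => v ∈ e ∧ e ⊆ insert v L₁.toFinset),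
      M L₁ ∅ (fun _ => p) v f ≤ d * p ^ (r - 1) := by
    calc ∑ f ∈ E.filter (fun e => v ∈ e ∧ e ⊆ insert v L₁.toFinset), M L₁ ∅ (fun _ => p) v f
        ≤ ∑ f ∈ E.filter (fun e => v ∈ e ∧ e ⊆ insert v L₁.toFinset), p ^ (r - 1) := by
          apply Finset.sum_le_sum
          intro f hf
          rw [Finset.mem_filter] at hf
          have hc : (f.erase v).card = r - 1 := by
            rw [Finset.card_erase_of_mem hf.2.1, hr f hf.1]
          unfold M
          rw [← hc, ← Finset.prod_const]
          apply Finset.prod_le_prod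
          · intro u _; exact fac_nonneg (fun _ => hp.le) u
          · intro u _
            unfold fac
            split_ifs with h1 h2
            · exact le_rfl
            · exact absurd h2 (Finset.notMem_empty u)
            · exact hp.le
      _ = (E.filter (fun e => v ∈ e ∧ e ⊆ insert v L₁.toFinset)).card * p ^ (r - 1) := by
          rw [Finset.sum_const, nsmul_eq_mul]
      _ ≤ d * p ^ (r - 1) := by
          gcongr
  have h1 : p / 2 ≤ Ex E L₁ ∅ (fun _ => p) (fun _ W' => tr (W' v)) := by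
    refine le_trans ?_ hkey
    simp only [div_self hp.ne', Real.log_one, zero_add]
    have h2 : (2 * ∑ f ∈ E.filter (fun e => v ∈ e ∧ e ⊆ insert v L₁.toFinset),
      M L₁ ∅ (fun _ => p) v f) / Real.log (1 / (2 * p)) ≤ 1 / 2 := by
      rw [div_le_iff₀ hp2]
      linarith
    nlinarith
  refine le_trans h1 ?_
  apply Ex_mono
  · intro _; exact hp.le
  · intro I W hW
    simp only [Ex]
    rw [Ex_mem _ _ _ _ _ (Finset.mem_insert_self v I), mul_one]
    have h3 : 0 ≤ Ex E L₂ I (rejW E I v W) (fun I' _ => if v ∈ I' then 1 else 0) := by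
      apply Ex_nonneg _ _ _ _ (rejW_nonneg hW)
      intro I' W' _
      split_ifs <;> norm_num
    have h4 := one_sub_tr_pos (W v)
    nlinarith [mul_nonneg h4.le h3]

theorem main (r : ℕ) (hr3 : 3 ≤ r) : ∃ c : ℝ, 0 < c ∧
      ∀ (V : Type) [Fintype V] [DecidableEq V] (E : Finset (Finset V)) (d : ℕ),
        2 ≤ d →
        (∀ e ∈ E, e.card = r) →
        (∀ S : Finset V, S.Nonempty →
          ∃ v ∈ S, (E.filter (fun e => v ∈ e ∧ e ⊆ S)).card ≤ d) →
        (¬ ∃ e ∈ E, ∃ f ∈ E, ∃ g ∈ E, ∃ u v w : V,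
            u ∈ e ∧ u ∈ f ∧ v ∈ f ∧ v ∈ g ∧ w ∈ e ∧ w ∈ g ∧
            u ∉ g ∧ v ∉ e ∧ w ∉ f) →
        ∃ wt : Finset V → ℝ,
          (∀ S, 0 ≤ wt S) ∧
          (∀ S, wt S ≠ 0 → ∀ e ∈ E, ¬ e ⊆ S) ∧
          (∀ v : V, 1 ≤ ∑ S : Finset V, (if v ∈ S then wt S else 0)) ∧
          (∑ S : Finset V, wt S) ≤
            c * ((d : ℝ) / Real.log (d : ℝ)) ^ (1 / ((r : ℝ) - 1)) := by
  set δ : ℝ := 1 / 2 ^ (r + 2) with hδ
  have hδpos : 0 < δ := by positivity
  set a : ℝ := 1 / ((r : ℝ) - 1) with ha
  have hr1 : (0 : ℝ) < (r : ℝ) - 1 := by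
    have : (3 : ℝ) ≤ r := by exact_mod_cast hr3
    linarith
  have hapos : 0 < a := by positivity
  refine ⟨2 * (1 / δ) ^ a, by positivity, ?_⟩
  intro V _ _ E d hd hr hdeg hT
  have hd' : (2 : ℝ) ≤ d := by exact_mod_cast hd
  have hdpos : (0 : ℝ) < d := by linarith
  have hlogd : 0 < Real.log d := Real.log_pos (by linarith)
  set p : ℝ := (δ * (Real.log d / d)) ^ a with hp
  have hbase : 0 < δ * (Real.log d / d) := by positivity
  have hppos : 0 < p := Real.rpow_pos_of_pos hbase a
  have hpow : p ^ (r - 1) = δ * (Real.log d / d) := by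
    rw [hp, ← Real.rpow_natCast, ← Real.rpow_mul hbase.le]
    have : a * ((r - 1 : ℕ) : ℝ) = 1 := by
      rw [Nat.cast_sub (by omega), Nat.cast_one, ha]
      field_simp
    rw [this, Real.rpow_one]
  -- the main numerical inequality
  have hK : 4 * d * p ^ (r - 1) ≤ Real.log (1 / (2 * p)) := by
    rw [hpow]
    have h1 : Real.log (1 / (2 * p)) = a * Real.log (1 / (δ * (Real.log d / d))) - Real.log 2 := by
      rw [one_div, Real.log_inv, Real.log_mul (by norm_num) hppos.ne', hp,
        Real.log_rpow hbase, one_div, Real.log_inv]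
      ring
    have h2 : Real.log (1 / (δ * (Real.log d / d)))
        = (r + 2) * Real.log 2 + Real.log d - Real.log (Real.log d) := by
      rw [one_div, Real.log_inv, Real.log_mul hδpos.ne' (by positivity),
        Real.log_div hlogd.ne' hdpos.ne', hδ, one_div, Real.log_inv, Real.log_pow]
      push_cast
      ring
    have h3 : Real.log (Real.log d) ≤ Real.log d / 2 := by
      calc Real.log (Real.log d) ≤ Real.log (Real.sqrt d) :=
            Real.log_le_log hlogd (log_le_sqrt' hdpos)
        _ = Real.log d / 2 := Real.log_sqrt hdpos.le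
    have h4 : ((r : ℝ) - 1) * (4 * δ) ≤ 1 / 2 := by
      have h5 : ((r - 1 : ℕ) : ℝ) ≤ 2 ^ (r - 1) := by
        exact_mod_cast (Nat.lt_two_pow_self (n := r - 1)).le
      rw [Nat.cast_sub (by omega), Nat.cast_one] at h5
      have h6 : δ = 1 / (8 * 2 ^ (r - 1)) := by
        rw [hδ]
        congr 1
        have : r + 2 = 3 + (r - 1) := by omega
        rw [this, pow_add]; norm_num
      rw [h6]
      rw [← mul_div_assoc, ← mul_div_assoc, div_le_div_iff₀ (by positivity) (by norm_num)]
      linarith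
    have hlog2 : 0 < Real.log 2 := Real.log_pos (by norm_num)
    have h7 : (4 : ℝ) * d * (δ * (Real.log d / d)) = 4 * δ * Real.log d := by
      field_simp
    rw [h7, h1, h2]
    have h8 : (r + 2) * Real.log 2 + Real.log d / 2
        ≤ (r + 2) * Real.log 2 + Real.log d - Real.log (Real.log d) := by linarith
    have h9 : ((r : ℝ) - 1) * (4 * δ * Real.log d + Real.log 2)
        ≤ (r + 2) * Real.log 2 + Real.log d / 2 := by
      have : ((r : ℝ) - 1) * (4 * δ) * Real.log d ≤ 1 / 2 * Real.log d := by gcongr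
      nlinarith
    have h10 : 4 * δ * Real.log d + Real.log 2
        ≤ a * ((r + 2) * Real.log 2 + Real.log d - Real.log (Real.log d)) := by
      rw [ha, one_div, ← div_eq_inv_mul, le_div_iff₀ hr1]
      linarith
    linarith
  have hKpos : 0 < Real.log (1 / (2 * p)) := lt_of_lt_of_le (by positivity) hK
  obtain ⟨L, hnd, hL, hprop⟩ := exists_order E d hdeg Finset.univ
  have hW0 : ∀ v : V, 0 ≤ (fun _ : V => p) v := fun _ => hppos.le
  refine ⟨fun S => 2 / p * Ex E L ∅ (fun _ => p) (fun I' _ => if I' = S then 1 else 0),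
    ?_, ?_, ?_, ?_⟩
  · intro S
    have h0 : 0 ≤ Ex E L ∅ (fun _ => p) (fun I' _ => if I' = S then 1 else 0) := by
      apply Ex_nonneg _ _ _ _ hW0
      intro I' W' _
      split_ifs <;> norm_num
    positivity
  · intro S hS e he hsub
    apply hS
    have : Ex E L ∅ (fun _ => p) (fun I' _ => if I' = S then 1 else 0) = 0 := by
      apply Ex_indep
      · intro e' he' hsub'
        have h1 := Finset.subset_empty.1 hsub'
        have h2 := hr e' he'
        rw [h1, Finset.card_empty] at h2
        omega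
      · intro v _ ⟨e', he', _, hsub'⟩
        exfalso
        have h1 := Finset.card_le_card hsub'
        rw [hr e' he'] at h1
        simp at h1
        omega
      · intro I' W' hI'
        rw [if_neg]
        rintro rfl
        exact hI' e he hsub
    simp only [this, mul_zero]
  · intro v
    have hvL : v ∈ L := by
      rw [← List.mem_toFinset, hL]; exact Finset.mem_univ v
    obtain ⟨L₁, L₂, hsplit⟩ := List.append_of_mem hvL
    have hprob := prob_mem hT r d hr p hppos hKpos hK L₁ L₂ v (hsplit ▸ hnd)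
      (hprop L₁ v L₂ hsplit)
    rw [← hsplit] at hprob
    have h1 : ∑ S : Finset V, (if v ∈ S then
        2 / p * Ex E L ∅ (fun _ => p) (fun I' _ => if I' = S then 1 else 0) else 0)
        = 2 / p * Ex E L ∅ (fun _ => p) (fun I' _ => if v ∈ I' then 1 else 0) := by
      rw [← Finset.sum_filter, ← Finset.mul_sum, ← Ex_sum]
      congr 2
      ext I' W'
      rw [Finset.sum_ite_eq]
      simp
    rw [h1]
    calc (1 : ℝ) = 2 / p * (p / 2) := by field_simp
      _ ≤ _ := by gcongr
  · rw [← Finset.mul_sum, ← Ex_sum]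
    have h1 : (fun (I' : Finset V) (_ : V → ℝ) => ∑ S : Finset V, if I' = S then (1 : ℝ) else 0)
        = fun _ _ => 1 := by
      ext I' W'
      simp
    rw [h1, Ex_const, mul_one]
    apply le_of_eq
    have h2 : (d : ℝ) / Real.log d = δ / (δ * (Real.log d / d)) := by
      field_simp
    rw [hp, h2, Real.div_rpow hδpos.le hbase.le, one_div δ, Real.inv_rpow hδpos.le]
    field_simp

end Pool.Agent.Helper91Hyp
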